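import Pool.Agent.Lib.MP_a13136_an.Hedge

open scoped ENNReal

namespace Pool.Agent.Results.MP_a13136_an.NearTwo

/-- operator norm of `φ(T)` -/
noncomputable def polyNorm {E : Type} [NormedAddCommGroup E] [NormedSpace ℂ E]
    (T : E →L[ℂ] E) (φ : Polynomial ℂ) : ℝ :=
  ‖Polynomial.aeval T φ‖

/-- `E`, `F` are normed spaces with coordinate maps `e`, `f`; the operator with matrix
`2^(-1/q) [[1,-1],[1,1]]` on `E` and the right shift on `F` are bounded and a polynomial of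
degree at most three has a larger norm at the first than at the second. -/
def Violates (E F : Type) [NormedAddCommGroup E] [NormedSpace ℂ E] [NormedAddCommGroup F]
    [NormedSpace ℂ F] (e : E → Fin 2 → ℂ) (f : F → ℕ → ℂ) (q : ℝ) : Prop :=
  ∃ (T : E →L[ℂ] E) (S : F →L[ℂ] F) (φ : Polynomial ℂ),
    (∀ x, e (T x) 0 = ((2 : ℝ) ^ (-1 / q) : ℝ) * (e x 0 - e x 1) ∧
      e (T x) 1 = ((2 : ℝ) ^ (-1 / q) : ℝ) * (e x 0 + e x 1)) ∧
    (∀ y, f (S y) 0 = 0 ∧ ∀ n, f (S y) (n + 1) = f y n) ∧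
    φ.natDegree ≤ 3 ∧ polyNorm S φ < polyNorm T φ

theorem result : ∃ p₀ : ℝ≥0∞, 1 ≤ p₀ ∧ p₀ < 2 ∧
    ∀ (p : ℝ≥0∞) [Fact (1 ≤ p)], p₀ < p → p < 2 →
      Violates (PiLp p (fun _ : Fin 2 => ℂ)) (lp (fun _ : ℕ => ℂ) p)
        (fun x i => x i) (fun y n => y n) p.toReal :=
  Pool.Agent.Lib.MP_a13136_an.near_two

end Pool.Agent.Results.MP_a13136_an.NearTwo
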